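import Pool.Agent.Helper5.FRD.Goals

/-! Project FRD (MP_79b960_co), packet MARK: a pair on a chain has a tail. -/

set_option autoImplicit false

open Finset

namespace Pool.Agent.Helper91.FRD.MARK

open Pool.Agent.Helper5.FRC Pool.Agent.Helper5.FRD

/-- from the end `g` of the chain a tail starts -/
lemma one (h1 : DichStmt) {V : Type} [Fintype V] [DecidableEq V] (A Z X : Finset V) (t p : V → V)
    (hA : Prg A t) (hZA : Z ⊆ A) (hZ : Prg Z p) (hXZ : X ⊆ Z) (hpX : ∀ x ∈ X, p x ∈ X) (g : V)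
    (hg : g ∈ A \ Z) (D : Finset V) (hDA : D ⊆ A) (hgD : g ∈ D) (hD : Cl Z ∅ t p D)
    (hmin : ∀ U' ⊆ A, g ∈ U' → Cl Z ∅ t p U' → D ⊆ U') (v : V)
    (hDX : D ∩ X = {v, p v}) : ∃ u U, (u = v ∨ u = p v) ∧ Tl A Z X t p u g U := by
  have hv : v ∈ D ∩ X := by rw [hDX]; simp
  rcases h1 V A Z X t p hA hZA hZ hXZ hpX g hg with
    ⟨f', -, -, U, ⟨hUA, hU, hUX, hUZ⟩, -⟩ | ⟨u, -, U, hT, hmin'⟩
  · exfalso
    have hgU : g ∈ U \ Z := by rw [hUZ]; simp
    have hDU : D ⊆ U := by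
      refine hmin U hUA (mem_sdiff.mp hgU).1 ?_
      intro x hx
      refine ⟨(hU x hx).1, fun hxZ _ => (hU x hx).2 hxZ ?_⟩
      intro hxX
      have : x ∈ U ∩ X := mem_inter.mpr ⟨hx, hxX⟩
      rw [hUX] at this
      exact notMem_empty x this
    have : v ∈ U ∩ X := mem_inter.mpr ⟨hDU (mem_inter.mp hv).1, (mem_inter.mp hv).2⟩
    rw [hUX] at this
    exact notMem_empty v this
  · have hUD : U ⊆ D := by
      refine hmin' D hDA hgD ?_
      intro x hx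
      exact ⟨(hD x hx).1, fun hxZ _ => (hD x hx).2 hxZ (notMem_empty x)⟩
    have hu : u ∈ U ∩ X := by rw [hT.2.2.1]; simp
    have hu' : u ∈ D ∩ X := mem_inter.mpr ⟨hUD (mem_inter.mp hu).1, (mem_inter.mp hu).2⟩
    rw [hDX] at hu'
    refine ⟨u, U, ?_, hT⟩
    simpa using hu'

theorem t (h1 : DichStmt) (h2 : UniqStmt) : Pool.Agent.Helper5.FRD.MarkStmt := by
  intro V _ _ A Z X t p hA hZA hZ hXZ hpX e he f hf hfe D hDA heD hfD hD hmine hminf v _ hDX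
  obtain ⟨u, U, hu, hT⟩ := one h1 A Z X t p hA hZA hZ hXZ hpX e he D hDA heD hD hmine v hDX
  obtain ⟨u', U', hu', hT'⟩ := one h1 A Z X t p hA hZA hZ hXZ hpX f hf D hDA hfD hD hminf v hDX
  rcases hu with rfl | hu
  · exact ⟨U, Or.inl hT⟩
  rcases hu' with rfl | hu'
  · exact ⟨U', Or.inr hT'⟩
  exfalso
  exact hfe ((h2 V A Z X t p hA hZA hZ hXZ hpX u u' e f U U' hT hT').mp (hu.trans hu'.symm)).symm

end Pool.Agent.Helper91.FRD.MARK
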